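import Mathlib
import Pool.Agent.Helper473.Malykhin

set_option autoImplicit false

namespace Pool.Agent.Results.MP_008583_gt.FullQ1

universe u

/-- Q1 of the problem: let `G` be a non-discrete topological group (of any cardinality) such that
no open subgroup of `G` is both countable and of exponent two. Then `G` is the union of two
disjoint dense subsets. (No separation axiom is needed.) -/
theorem result :
    ∀ (G : Type u) [Group G] [TopologicalSpace G] [IsTopologicalGroup G],
      ¬ DiscreteTopology G →
      (∀ K : Subgroup G, IsOpen (K : Set G) → ¬ ((K : Set G).Countable ∧ ∀ x ∈ K, x * x = 1)) →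
      ∃ A B : Set G, Dense A ∧ Dense B ∧ Disjoint A B ∧ A ∪ B = Set.univ := by
  intro G _ _ _ _ hC
  by_contra hcon
  have hG : H473.NoRes G := by
    rintro ⟨A, hA, hA'⟩
    exact hcon ⟨A, Aᶜ, hA, hA', disjoint_compl_right, Set.union_compl_self A⟩
  obtain ⟨K, hK, hKc, hK2⟩ := H473.open_countable_boolean (H473.good_all G) hG
  exact hC K hK ⟨hKc, hK2⟩

end Pool.Agent.Results.MP_008583_gt.FullQ1
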