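import Pool.Agent.Helper495.Res.Small

set_option autoImplicit false

namespace Pool.Agent.Results.MP_008583_gt.SmallQ1

open Cardinal Ordinal H495R Pool.Agent.Helper495.Res

universe u

/-- Condition (C) of the problem: `G` is non-discrete and no open subgroup of `G` is both
countable and of exponent two. -/
def CondC (G : Type u) [Group G] [TopologicalSpace G] : Prop :=
  ¬ DiscreteTopology G ∧
    ∀ K : Subgroup G, IsOpen (K : Set G) → ¬ ((K : Set G).Countable ∧ ∀ x ∈ K, x * x = 1)

/-- Let `G` be a topological group with a subgroup `H` (for instance `H = G`) that satisfies (C) in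
the subspace topology. If the dispersion character of `H` is countable or regular and not a
strong limit, or if `H` belongs to the class `TameW`, then `G` can be split into two disjoint
dense subsets. -/
theorem result :
    (∀ (G : Type u) [Group G] [TopologicalSpace G] [IsTopologicalGroup G] (H : Subgroup G),
      (dispersion H ≤ ℵ₀ ∨ (dispersion H).IsRegular ∧
        ∃ μ, μ < dispersion H ∧ dispersion H ≤ 2 ^ μ) →
      CondC H → ∃ A : Set G, Dense A ∧ Dense Aᶜ) ∧
    (∀ (G : Type) [Group G] [TopologicalSpace G] [IsTopologicalGroup G] (H : Subgroup G),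
      TameW H → CondC H → ∃ A : Set G, Dense A ∧ Dense Aᶜ) := by
  constructor
  · intro G _ _ _ H h hC
    apply res_of_subgroup H
    by_contra hG
    obtain ⟨K, hK, hKc, hK2⟩ := boolean_of_nhds (countable_nhds_of_dispersion H h hG) hG
    exact hC.2 K hK ⟨hKc, hK2⟩
  · intro G _ _ _ H h hC
    apply res_of_subgroup H
    by_contra hG
    obtain ⟨K, hK, hKc, hK2⟩ := open_countable_boolean (good_of_tameW H h) hG
    exact hC.2 K hK ⟨hKc, hK2⟩

/-- Q1 of the problem for all groups of cardinality less than `ℵ_ω`. -/
theorem aleph_omega (G : Type u) [Group G] [TopologicalSpace G] [IsTopologicalGroup G]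
    (hG : #G < ℵ_ ω) (hC : CondC G) : ∃ A : Set G, Dense A ∧ Dense Aᶜ := by
  by_contra h
  obtain ⟨K, hK, hKc, hK2⟩ := open_countable_boolean (good_of_small G hG) h
  exact hC.2 K hK ⟨hKc, hK2⟩

end Pool.Agent.Results.MP_008583_gt.SmallQ1
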