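import Mathlib
import Pool.Agent.Helper473.Struct

set_option autoImplicit false

namespace Pool.Agent.Results.MP_008583_gt.TameQ1

open H473

/-- Condition (C) of the problem: `G` is non-discrete and no open subgroup of `G` is both
countable and of exponent two. -/
def CondC (G : Type) [Group G] [TopologicalSpace G] : Prop :=
  ¬ DiscreteTopology G ∧
    ∀ K : Subgroup G, IsOpen (K : Set G) → ¬ ((K : Set G).Countable ∧ ∀ x ∈ K, x * x = 1)

/-- Let `G` be a topological group with a subgroup `H` in the class `Tame` that satisfies (C) in
the subspace topology. Then `G` can be split into two disjoint dense subsets. -/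
theorem result :
    ∀ (G : Type) [Group G] [TopologicalSpace G] [IsTopologicalGroup G] (H : Subgroup G), Tame H →
      CondC H → ∃ A : Set G, Dense A ∧ Dense Aᶜ := by
  intro G _ _ _ H hH hC
  apply res_of_subgroup H
  by_contra hG
  obtain ⟨K, hK, hKc, hK2⟩ := open_countable_boolean (good_of_tame H hH) hG
  exact hC.2 K hK ⟨hKc, hK2⟩

/-- Q1 of the problem for every tame group. -/
theorem tame_group (G : Type) [Group G] [TopologicalSpace G] [IsTopologicalGroup G] (hG : Tame G)
    (hC : CondC G) : ∃ A : Set G, Dense A ∧ Dense Aᶜ := by
  by_contra h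
  obtain ⟨K, hK, hKc, hK2⟩ := open_countable_boolean (good_of_tame G hG) h
  exact hC.2 K hK ⟨hKc, hK2⟩

/-- Q1 of the problem for every solvable group of any cardinality. -/
theorem solvable_group (G : Type) [Group G] [TopologicalSpace G] [IsTopologicalGroup G]
    [Group.IsSolvable G] (hC : CondC G) : ∃ A : Set G, Dense A ∧ Dense Aᶜ :=
  tame_group G (tame_of_solvable G) hC

end Pool.Agent.Results.MP_008583_gt.TameQ1
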