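import Mathlib
import Pool.Agent.Helper473.Omega

set_option autoImplicit false

namespace Pool.Agent.Results.MP_008583_gt.TameQ2

open H473

/-- Let `G` be a topological group with a subgroup `H` in the class `Tame` such that `H`, in the
subspace topology, has no countable open subgroup. Then `G` can be split into infinitely many
pairwise disjoint dense subsets. -/
theorem result :
    ∀ (G : Type) [Group G] [TopologicalSpace G] [IsTopologicalGroup G] (H : Subgroup G), Tame H →
      (∀ K : Subgroup H, IsOpen (K : Set H) → ¬ (K : Set H).Countable) →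
      ∃ D : ℕ → Set G, (∀ m n, m ≠ n → Disjoint (D m) (D n)) ∧ (⋃ n, D n) = Set.univ ∧
        ∀ n, Dense (D n) := by
  intro G _ _ _ H hH hC
  have h : OmegaRes G := by
    apply omega_of_subgroup H
    by_contra hG
    obtain ⟨U, hU, hUc⟩ := ogood_of_tame H hH hG
    refine hC (Subgroup.closure U) ?_ (Set.countable_coe_iff.1 (closure_countable hUc))
    exact Subgroup.isOpen_of_mem_nhds _ (g := 1)
      (Filter.mem_of_superset hU Subgroup.subset_closure)
  obtain ⟨c, hc⟩ := h
  refine ⟨fun n => {x | c x = n}, ?_, ?_, hc⟩
  · intro m n hmn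
    rw [Set.disjoint_left]
    intro x hx hx2
    exact hmn (hx.symm.trans hx2)
  · ext x
    simp

/-- The case `H = G`. -/
theorem tame_group (G : Type) [Group G] [TopologicalSpace G] [IsTopologicalGroup G] (hG : Tame G)
    (hC : ∀ K : Subgroup G, IsOpen (K : Set G) → ¬ (K : Set G).Countable) :
    ∃ D : ℕ → Set G, (∀ m n, m ≠ n → Disjoint (D m) (D n)) ∧ (⋃ n, D n) = Set.univ ∧
      ∀ n, Dense (D n) := by
  have h : OmegaRes G := by
    by_contra h
    obtain ⟨U, hU, hUc⟩ := ogood_of_tame G hG h
    refine hC (Subgroup.closure U) ?_ (Set.countable_coe_iff.1 (closure_countable hUc))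
    exact Subgroup.isOpen_of_mem_nhds _ (g := 1)
      (Filter.mem_of_superset hU Subgroup.subset_closure)
  obtain ⟨c, hc⟩ := h
  refine ⟨fun n => {x | c x = n}, ?_, ?_, hc⟩
  · intro m n hmn
    rw [Set.disjoint_left]
    intro x hx hx2
    exact hmn (hx.symm.trans hx2)
  · ext x
    simp

/-- Every solvable group is tame. -/
theorem solvable_tame (G : Type) [Group G] [Group.IsSolvable G] : Tame G := tame_of_solvable G

end Pool.Agent.Results.MP_008583_gt.TameQ2
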